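import Pool.Agent.Q67.HV.FinT
import Pool.Agent.H772R2.NS.PubBridge

/-!
Weak solutions of the Navier-Stokes equations in `ℝ³` with Hölder continuous vorticity direction,
of any exponent, belong to `L⁴(0,T; L⁴)`.

Definitions used (file `Pool/Agent/H772R2/NS/Pub.lean`): `R3`, `Mat`, `L2 Ω E`, `L2.fn`,
`H10sigma`, `IsWeakSolution`, `norm4`.
-/

set_option autoImplicit false

open MeasureTheory Set Metric
open scoped InnerProductSpace ENNReal
open H772R2.NS.Pub

namespace Pool.Agent.Results.MP_1c98a8_an.HoelderDirection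

/-- The entry `(i, j)` of a matrix; for the gradient of a field `u` it is `∂_j u_i`. -/
def entry (z : Mat) (i j : Fin 3) : ℝ := (show EuclideanSpace ℝ (Fin 3 × Fin 3) from z) (i, j)

/-- The curl of a field from its gradient: `(∂_1 u_2 - ∂_2 u_1, ∂_2 u_0 - ∂_0 u_2,
∂_0 u_1 - ∂_1 u_0)`. -/
noncomputable def curl (z : Mat) : R3 :=
  (WithLp.toLp 2 ![entry z 2 1 - entry z 1 2, entry z 0 2 - entry z 2 0,
    entry z 1 0 - entry z 0 1] : EuclideanSpace ℝ (Fin 3))

/-- The direction of `w` is Hölder continuous with exponent `β` and constant `c`, up to its sign: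
`sin θ(x, y) ≤ c |x - y|^β` for almost all `x, y` where `w` does not vanish; `θ(x, y)` is the
angle between `w x` and `w y`. -/
def HoelderDirection (c β : ℝ) (w : R3 → R3) : Prop :=
  ∀ᵐ x : R3, ∀ᵐ y : R3, w x ≠ 0 → w y ≠ 0 →
    Real.sin (InnerProductGeometry.angle (w x) (w y)) ≤ c * ‖x - y‖ ^ β

theorem curl_eq (z : H772R2.NS.M3) : curl z = Pool.Agent.Q67.HV.vor z := by
  unfold curl Pool.Agent.Q67.HV.vor
  congr 1
  funext i
  fin_cases i <;> simp [entry, Pool.Agent.Q67.HV.eps, Fin.sum_univ_three] <;> ring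

/-- Weak solutions with vorticity direction Hölder continuous of any exponent `β > 0` are in
`L⁴(0,T; L⁴)`. -/
theorem result {ν T β c : ℝ} (hν : 0 < ν) (hT : 0 < T) (hβ : 0 < β)
    {u : ℝ → L2 univ R3} {G : ℝ → L2 univ Mat} (hu : IsWeakSolution univ ν T u G 0)
    (h0 : u 0 ∈ H10sigma univ)
    (hdir : ∀ᵐ t ∂(volume.restrict (Ioo 0 T)),
      HoelderDirection c β (fun x => curl ((G t).fn x))) :
    ∫⁻ t in Ioo 0 T, norm4 (u t) ^ 4 < ⊤ := by
  have hu' := toNS hu
  obtain ⟨z, hz⟩ := h0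
  have hz' := mem_pub.mpr hz
  obtain ⟨R, hR, H⟩ := Pool.Agent.Q67.HV.dc_of_hoelder (c := c) hβ
  have h1 := Pool.Agent.Q67.HV.main_dc Pool.Agent.Q67.HV.a_F Pool.Agent.Q67.HV.a_Q
    Pool.Agent.Q67.HV.a_L hν hT (by norm_num : (0 : ℝ) < 1 / 2) (by norm_num) hR hu' le_rfl hT hz'
    (by
      filter_upwards [hdir] with t ht
      refine H _ ?_
      have e : (fun x => curl ((G t).fn x)) = fun x =>
          Pool.Agent.Q67.HV.vor ((show H772R2.NS.L2M univ from G t) x) :=
        funext fun x => curl_eq _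
      rw [e] at ht
      exact ht)
  have e0 : ∀ F : H772R2.NS.E3 → H772R2.NS.E3,
      eLpNorm F 4 ((volume : Measure H772R2.NS.E3).restrict univ)
        = eLpNorm F 4 (volume : Measure H772R2.NS.E3) := fun F => by rw [Measure.restrict_univ]
  refine lt_of_eq_of_lt ?_ h1
  exact lintegral_congr fun t => congrArg (· ^ 4) (e0 _)

end Pool.Agent.Results.MP_1c98a8_an.HoelderDirection
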